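import Mathlib

/-!
# Three squares, arithmetic part

For `n = 3 mod 8` there are integers `a, b, h` and `d = b n - 1 > 0` with `b > 0` and
`a d - h^2 = b` (Dirichlet's theorem on primes in progressions and quadratic reciprocity).
-/

namespace Pool.Agent.H82.TS

open NumberTheorySymbols

/-- the prime: `2 p = (8 j + 1) n - 1`. -/
theorem exists_prime (n : ℕ) (hn : n % 8 = 3) :
    ∃ p j : ℕ, p.Prime ∧ p % 4 = 1 ∧ 2 * p + 1 = (8 * j + 1) * n := by
  obtain ⟨t, rfl⟩ : ∃ t, n = 8 * t + 3 := ⟨n / 8, by omega⟩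
  set n := 8 * t + 3 with hnn
  have hco : Nat.Coprime (4 * t + 1) (4 * n) := by
    have h1 : Nat.Coprime (4 * t + 1) 4 := by
      rw [show 4 * t + 1 = t * 4 + 1 by ring, Nat.coprime_mul_right_add_left]
      norm_num
    have h2 : Nat.Coprime (4 * t + 1) n := by
      have : n = 1 + (4 * t + 1) * 2 := by omega
      rw [this]
      simp [Nat.coprime_add_mul_left_right]
    exact Nat.Coprime.mul_right h1 h2
  have : NeZero (4 * n) := ⟨by omega⟩
  have hu : IsUnit ((4 * t + 1 : ℕ) : ZMod (4 * n)) := by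
    rwa [ZMod.isUnit_iff_coprime]
  obtain ⟨p, hgt, hp, hmod⟩ := Nat.forall_exists_prime_gt_and_eq_mod hu (4 * n)
  have hmod' : p ≡ 4 * t + 1 [MOD 4 * n] := (ZMod.natCast_eq_natCast_iff _ _ _).1 hmod
  have hle : 4 * t + 1 ≤ p := by omega
  obtain ⟨j, hj⟩ := (Nat.modEq_iff_dvd' hle).1 hmod'.symm
  have hpj : p = 4 * t + 1 + 4 * n * j := by omega
  refine ⟨p, j, hp, ?_, ?_⟩
  · rw [hpj, mul_assoc, Nat.add_mul_mod_self_left]
    omega
  · rw [hpj, hnn]
    ring

/-- the residue: `-b` is a square modulo `2 p`. -/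
theorem exists_root (n p j : ℕ) (hp : p.Prime) (h4 : p % 4 = 1)
    (h : 2 * p + 1 = (8 * j + 1) * n) :
    ∃ k : ℤ, (2 * p : ℤ) ∣ k ^ 2 + (8 * j + 1) := by
  have : Fact p.Prime := ⟨hp⟩
  set b : ℕ := 8 * j + 1 with hb
  have hbodd : Odd b := ⟨4 * j, by omega⟩
  have hpodd : Odd p := Nat.odd_iff.2 (by omega)
  have e1 : J(-(b : ℤ) | p) = J((b : ℤ) | p) := by
    rw [jacobiSym.neg _ hpodd, ZMod.χ₄_nat_one_mod_four h4, one_mul]
  have e2 : J((b : ℤ) | p) = J((p : ℤ) | b) :=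
    jacobiSym.quadratic_reciprocity_one_mod_four' hbodd h4
  have e3 : J(-2 | b) = 1 := by
    rw [jacobiSym.at_neg_two hbodd]
    have : ((b : ℕ) : ZMod 8) = 1 := by
      rw [hb]
      push_cast
      have : (8 : ZMod 8) = 0 := by decide
      rw [this]
      ring
    rw [this]
    decide
  have e4 : J((p : ℤ) | b) = J(-2 * (p : ℤ) | b) := by
    rw [jacobiSym.mul_left, e3, one_mul]
  have e5 : J(-2 * (p : ℤ) | b) = J(1 | b) := by
    apply jacobiSym.mod_left'
    have : (-2 * (p : ℤ)) = 1 + b * (-(n : ℤ)) := by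
      have : (2 * (p : ℤ) + 1) = b * n := by exact_mod_cast h
      linarith
    rw [this, Int.add_mul_emod_self_left]
  have e6 : legendreSym p (-(b : ℤ)) = 1 := by
    rw [jacobiSym.legendreSym.to_jacobiSym, e1, e2, e4, e5, jacobiSym.one_left]
  have hne : ((-(b : ℤ) : ℤ) : ZMod p) ≠ 0 := by
    intro h0
    rw [(legendreSym.eq_zero_iff p _).2 h0] at e6
    exact absurd e6 (by norm_num)
  obtain ⟨r, hr⟩ := (legendreSym.eq_one_iff p hne).1 e6
  obtain ⟨k, rfl⟩ := ZMod.intCast_surjective r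
  have hk : (p : ℤ) ∣ k ^ 2 + b := by
    rw [← ZMod.intCast_zmod_eq_zero_iff_dvd]
    push_cast
    push_cast at hr
    rw [sq, ← hr]
    ring
  -- make `k` odd
  obtain ⟨k', hk'p, hk'o⟩ : ∃ k' : ℤ, (p : ℤ) ∣ k' ^ 2 + b ∧ Odd k' := by
    rcases Int.even_or_odd k with he | ho
    · refine ⟨k + p, ?_, ?_⟩
      · have : (k + p) ^ 2 + (b : ℤ) = (k ^ 2 + b) + p * (2 * k + p) := by ring
        rw [this]
        exact dvd_add hk (dvd_mul_right _ _)
      · exact he.add_odd (by exact_mod_cast hpodd)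
    · exact ⟨k, hk, ho⟩
  refine ⟨k', ?_⟩
  have h2 : (2 : ℤ) ∣ k' ^ 2 + b := by
    obtain ⟨u, rfl⟩ := hk'o
    refine ⟨2 * u ^ 2 + 2 * u + 4 * j + 1, ?_⟩
    rw [hb]
    push_cast
    ring
  have hcop : IsCoprime (2 : ℤ) (p : ℤ) := by
    rw [Int.isCoprime_iff_gcd_eq_one]
    have : Nat.Coprime 2 p := (Nat.coprime_two_left).2 hpodd
    simpa [Int.gcd] using this
  have := hcop.mul_dvd h2 hk'p
  have hcast : ((b : ℕ) : ℤ) = 8 * j + 1 := by rw [hb]; push_cast; ring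
  rwa [hcast] at this

/-- the ternary form of determinant one: integers `a, b, d, h` with `b, d > 0`,
`a d - h^2 = b`, `b n - d = 1`. -/
theorem exists_form (n : ℕ) (hn : n % 8 = 3) :
    ∃ a b d h : ℤ, 0 < b ∧ 0 < d ∧ a * d - h ^ 2 = b ∧ b * n - d = 1 := by
  obtain ⟨p, j, hp, h4, h⟩ := exists_prime n hn
  obtain ⟨k, a, ha⟩ := exists_root n p j hp h4 h
  refine ⟨a, 8 * j + 1, 2 * p, k, by positivity, ?_, by linarith, ?_⟩
  · have := hp.pos
    positivity
  · have : (2 * (p : ℤ) + 1) = (8 * j + 1) * n := by exact_mod_cast h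
    linarith

end Pool.Agent.H82.TS
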