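import Mathlib

/-!
# Three squares, geometric part

Minkowski's theorem for ellipsoids in dimension three, and: a positive definite integral
ternary form of determinant one is a sum of three squares.
-/

namespace Pool.Agent.H82.TS

open MeasureTheory Matrix

/-- Minkowski for the ellipsoid `|A x|^2 < c`. -/
theorem minkowski (A : Matrix (Fin 3) (Fin 3) ℝ) (hA : A.det ≠ 0) (r : ℝ) (hr : 0 < r)
    (hv : 8 * |A.det| < r ^ 3 * (Real.pi * 4 / 3)) :
    ∃ x : Fin 3 → ℤ, x ≠ 0 ∧ ∑ i, (A.mulVec (fun j => (x j : ℝ))) i ^ 2 < r ^ 2 := by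
  classical
  -- the body
  set s : Set (Fin 3 → ℝ) := (Matrix.toLin' A) ⁻¹' {y | ∑ i, y i ^ 2 < r ^ 2} with hs
  have hball : volume {y : Fin 3 → ℝ | ∑ i, y i ^ 2 < r ^ 2}
      = ENNReal.ofReal (r ^ 3 * (Real.pi * 4 / 3)) := by
    have h1 : volume (Metric.ball (0 : EuclideanSpace ℝ (Fin 3)) r)
        = ENNReal.ofReal (r ^ 3 * (Real.pi * 4 / 3)) := by
      rw [EuclideanSpace.volume_ball_fin_three, ENNReal.ofReal_mul (by positivity),
        ENNReal.ofReal_pow hr.le]
    rw [← h1, ← (PiLp.volume_preserving_toLp (Fin 3)).measure_preimage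
      measurableSet_ball.nullMeasurableSet]
    congr 1
    ext y
    simp only [Set.mem_ofPred_eq, Set.mem_preimage, Metric.mem_ball, dist_zero_right,
      EuclideanSpace.norm_eq, Real.norm_eq_abs, sq_abs]
    rw [Real.sqrt_lt' hr]
  have hdet : LinearMap.det (Matrix.toLin' A) ≠ 0 := by
    rwa [LinearMap.det_toLin']
  have hvol : volume s = ENNReal.ofReal (|A.det|⁻¹ * (r ^ 3 * (Real.pi * 4 / 3))) := by
    rw [hs, MeasureTheory.Measure.addHaar_preimage_linearMap volume hdet, hball,
      LinearMap.det_toLin', ← ENNReal.ofReal_mul (abs_nonneg _), abs_inv]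
  -- the lattice
  set b := Pi.basisFun ℝ (Fin 3) with hb
  have hfund : IsAddFundamentalDomain (Submodule.span ℤ (Set.range b)).toAddSubgroup
      (ZSpan.fundamentalDomain b) (volume : Measure (Fin 3 → ℝ)) :=
    ZSpan.isAddFundamentalDomain b (volume : Measure (Fin 3 → ℝ))
  have hcount : Countable (Submodule.span ℤ (Set.range b)).toAddSubgroup :=
    inferInstanceAs (Countable (Submodule.span ℤ (Set.range b)))
  have hF : volume (ZSpan.fundamentalDomain b) = 1 := by
    rw [ZSpan.volume_fundamentalDomain]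
    have : (Matrix.of (b : Fin 3 → Fin 3 → ℝ)) = 1 := by
      ext i j
      simp [hb, Matrix.one_apply, Pi.single_apply, eq_comm]
    rw [this]
    simp
  have hsymm : ∀ x ∈ s, -x ∈ s := by
    intro x hx
    simp only [hs, Set.mem_preimage, Set.mem_ofPred_eq, map_neg, Pi.neg_apply, neg_sq] at hx ⊢
    exact hx
  have hconv : Convex ℝ s := by
    have hc : Convex ℝ {y : Fin 3 → ℝ | ∑ i, y i ^ 2 < r ^ 2} := by
      have : {y : Fin 3 → ℝ | ∑ i, y i ^ 2 < r ^ 2}
          = ((WithLp.linearEquiv 2 ℝ (Fin 3 → ℝ)).symm.toLinearMap) ⁻¹'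
            (Metric.ball (0 : EuclideanSpace ℝ (Fin 3)) r) := by
        ext y
        simp only [Set.mem_ofPred_eq, Set.mem_preimage, Metric.mem_ball, dist_zero_right,
          EuclideanSpace.norm_eq, Real.norm_eq_abs, sq_abs]
        rw [Real.sqrt_lt' hr]
        rfl
      rw [this]
      exact (convex_ball _ _).linear_preimage _
    exact hc.linear_preimage _
  have hlt : volume (ZSpan.fundamentalDomain b) * 2 ^ Module.finrank ℝ (Fin 3 → ℝ)
      < volume s := by
    rw [hF, hvol, Module.finrank_fin_fun, one_mul]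
    have h8 : (2 : ENNReal) ^ 3 = ENNReal.ofReal 8 := by
      rw [show (8 : ℝ) = 2 ^ 3 by norm_num, ENNReal.ofReal_pow (by norm_num)]
      norm_num
    rw [h8]
    apply (ENNReal.ofReal_lt_ofReal_iff (by positivity)).2
    have hpos : 0 < |A.det| := abs_pos.2 hA
    rw [inv_mul_eq_div, lt_div_iff₀ hpos]
    exact hv
  obtain ⟨x, hx0, hxs⟩ :=
    exists_ne_zero_mem_lattice_of_measure_mul_two_pow_lt_measure hfund hsymm hconv hlt
  have hx := (b.mem_span_iff_repr_mem ℤ (x : Fin 3 → ℝ)).1 x.2
  choose z hz using hx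
  refine ⟨z, ?_, ?_⟩
  · rintro rfl
    apply hx0
    apply Subtype.ext
    funext i
    have := hz i
    simp [hb] at this
    simpa using this.symm
  · have hxz : (x : Fin 3 → ℝ) = fun j => (z j : ℝ) := by
      funext i
      have := hz i
      simp [hb] at this
      exact this.symm
    rw [hs] at hxs
    simp only [Set.mem_preimage, Set.mem_ofPred_eq, Matrix.toLin'_apply] at hxs
    rw [hxz] at hxs
    exact hxs

end Pool.Agent.H82.TS
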